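import Mathlib

/-!
# MP_bb83f1_co: a non-bipartite graph whose fully active cop number exceeds its cop number

A connected non-bipartite graph on 14 vertices on which two cops win the ordinary (passive) game
of Cops and Robbers, but two cops do not win the fully active game.
-/

set_option autoImplicit false

namespace Pool.Agent.Results.MP_bb83f1_co.ActiveExceedsPassive

section Game

variable {V : Type}

/-- A move of one player from `u` to `v`. In the fully active game (`act = true`) the player must
go to an adjacent vertex. In the passive game (`act = false`) he goes to an adjacent vertex or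
stays put. -/
def Step (act : Bool) (G : SimpleGraph V) (u v : V) : Prop :=
  G.Adj u v ∨ (act = false ∧ v = u)

/-- A (history dependent) strategy of `k` cops: `σ h i` is the position of cop `i` after the cops
have seen and answered the robber positions in the list `h` (latest first); `σ []` is the initial
placement. It is legal if every cop makes a legal move in every round. -/
def LegalStrategy (act : Bool) (G : SimpleGraph V) {k : ℕ} (σ : List V → Fin k → V) : Prop :=
  ∀ (h : List V) (r : V) (i : Fin k), Step act G (σ h i) (σ (r :: h) i)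

/-- The successive robber positions `r 0, r 1, ...`: he makes a legal move in every round. -/
def RobberRun (act : Bool) (G : SimpleGraph V) (r : ℕ → V) : Prop :=
  ∀ n, Step act G (r n) (r (n + 1))

/-- The list of the first `n` robber positions, latest first. -/
def past (r : ℕ → V) : ℕ → List V
  | 0 => []
  | n + 1 => r n :: past r n

/-- `k` cops have a winning strategy (in the fully active game if `act = true`, in the passive
game if `act = false`): against every run of the robber some cop occupies the vertex of the robber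
at some time, before or after the cops' answer to the robber position `r n`. -/
def CopsWin (act : Bool) (G : SimpleGraph V) (k : ℕ) : Prop :=
  ∃ σ : List V → Fin k → V, LegalStrategy act G σ ∧
    ∀ r : ℕ → V, RobberRun act G r →
      ∃ n i, σ (past r n) i = r n ∨ σ (past r (n + 1)) i = r n

/-- The cop number: `copNumber false G` is the usual (passive) cop number `c(G)` and
`copNumber true G` is the fully active cop number. -/
noncomputable def copNumber (act : Bool) (G : SimpleGraph V) : ℕ := sInf {k | CopsWin act G k}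

end Game

/-! ### The graph -/

/-- The lists of neighbours. -/
def nb : Fin 14 → List (Fin 14)
  | 0 => [6, 7, 10, 12, 13]
  | 1 => [8, 9, 11, 12, 13]
  | 2 => [3, 4, 5, 12, 13]
  | 3 => [2, 5, 6, 7, 8, 9]
  | 4 => [2, 5, 6, 7, 8, 9]
  | 5 => [2, 3, 4, 12, 13]
  | 6 => [0, 3, 4, 8, 9, 10]
  | 7 => [0, 3, 4, 8, 9, 10]
  | 8 => [1, 3, 4, 6, 7, 11]
  | 9 => [1, 3, 4, 6, 7, 11]
  | 10 => [0, 6, 7, 12, 13]
  | 11 => [1, 8, 9, 12, 13]
  | 12 => [0, 1, 2, 5, 10, 11]
  | 13 => [0, 1, 2, 5, 10, 11]

/-- The graph on 14 vertices. -/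
def G14 : SimpleGraph (Fin 14) where
  Adj a b := b ∈ nb a
  symm := ⟨by decide⟩
  loopless := ⟨by decide⟩

instance : DecidableRel G14.Adj := fun a b => inferInstanceAs (Decidable (b ∈ nb a))

theorem adj_iff {a b : Fin 14} : G14.Adj a b ↔ b ∈ nb a := Iff.rfl

/-! ### Two fully active cops do not win -/

/-- `safeTbl a b` is the bit set of the robber positions which are safe when the cops, at `a`
and `b`, are to move. -/
def safeTbl : List (List ℕ) :=
  [[2878, 60, 2818, 2066, 2058, 2818, 2086, 2086, 548, 292, 2878, 60, 792, 792],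
   [60, 1277, 1217, 1041, 1033, 1217, 164, 100, 1061, 1061, 60, 1277, 216, 216],
   [2818, 1217, 4035, 3075, 3075, 4035, 2178, 2114, 1537, 1281, 2818, 1217, 960, 960],
   [2066, 1041, 3075, 15379, 15363, 3075, 14338, 14338, 13313, 13313, 2066, 1041, 8208, 4112],
   [2058, 1033, 3075, 15363, 15371, 3075, 14338, 14338, 13313, 13313, 2058, 1033, 8200, 4104],
   [2818, 1217, 4035, 3075, 3075, 4035, 2178, 2114, 1537, 1281, 2818, 1217, 960, 960],
   [2086, 164, 2178, 14338, 14338, 2178, 14502, 14374, 12324, 12324, 2086, 164, 8320, 4224],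
   [2086, 100, 2114, 14338, 14338, 2114, 14374, 14438, 12324, 12324, 2086, 100, 8256, 4160],
   [548, 1061, 1537, 13313, 13313, 1537, 12324, 12324, 13861, 13349, 548, 1061, 8704, 4608],
   [292, 1061, 1281, 13313, 13313, 1281, 12324, 12324, 13349, 13605, 292, 1061, 8448, 4352],
   [2878, 60, 2818, 2066, 2058, 2818, 2086, 2086, 548, 292, 2878, 60, 792, 792],
   [60, 1277, 1217, 1041, 1033, 1217, 164, 100, 1061, 1061, 60, 1277, 216, 216],
   [792, 216, 960, 8208, 8200, 960, 8320, 8256, 8704, 8448, 792, 216, 9176, 984],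
   [792, 216, 960, 4112, 4104, 960, 4224, 4160, 4608, 4352, 792, 216, 984, 5080]]

/-- the robber positions which are safe when the robber is to move -/
def goodTbl : List (List ℕ) :=
  [[15358, 13308, 15322, 15334, 15334, 15322, 15166, 15166, 14590, 14590, 15358, 13308, 3070, 3070],
   [13308, 14333, 14297, 14309, 14309, 14297, 14141, 14141, 13565, 13565, 13308, 14333, 2045, 2045],
   [15322, 14297, 16347, 16323, 16323, 16347, 16155, 16155, 15579, 15579, 15322, 14297, 4059, 4059],
   [15334, 14309, 16323, 16359, 16359, 16323, 16167, 16167, 15591, 15591, 15334, 14309, 4071, 4071],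
   [15334, 14309, 16323, 16359, 16359, 16323, 16167, 16167, 15591, 15591, 15334, 14309, 4071, 4071],
   [15322, 14297, 16347, 16323, 16323, 16347, 16155, 16155, 15579, 15579, 15322, 14297, 4059, 4059],
   [15166, 14141, 16155, 16167, 16167, 16155, 16191, 16191, 15423, 15423, 15166, 14141, 3903, 3903],
   [15166, 14141, 16155, 16167, 16167, 16155, 16191, 16191, 15423, 15423, 15166, 14141, 3903, 3903],
   [14590, 13565, 15579, 15591, 15591, 15579, 15423, 15423, 15615, 15615, 14590, 13565, 3327, 3327],
   [14590, 13565, 15579, 15591, 15591, 15579, 15423, 15423, 15615, 15615, 14590, 13565, 3327, 3327],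
   [15358, 13308, 15322, 15334, 15334, 15322, 15166, 15166, 14590, 14590, 15358, 13308, 3070, 3070],
   [13308, 14333, 14297, 14309, 14309, 14297, 14141, 14141, 13565, 13565, 13308, 14333, 2045, 2045],
   [3070, 2045, 4059, 4071, 4071, 4059, 3903, 3903, 3327, 3327, 3070, 2045, 4095, 4095],
   [3070, 2045, 4059, 4071, 4071, 4059, 3903, 3903, 3327, 3327, 3070, 2045, 4095, 4095]]

/-- safe positions with the cops to move -/
def S (a b r : Fin 14) : Bool := (((safeTbl.getD a []).getD b 0).testBit r)

/-- safe positions with the robber to move -/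
def T (a b r : Fin 14) : Bool := (((goodTbl.getD a []).getD b 0).testBit r)

theorem S_start : ∀ a b : Fin 14, ∃ r, S a b r = true := by decide

theorem S_sub : ∀ a b : Fin 14, ∀ a' ∈ nb a, ∀ b' ∈ nb b,
    (((safeTbl.getD a []).getD b 0) &&& ((goodTbl.getD a' []).getD b' 0)) =
      ((safeTbl.getD a []).getD b 0) := by decide

theorem S_T {a b a' b' r : Fin 14} (ha : a' ∈ nb a) (hb : b' ∈ nb b) (h : S a b r = true) :
    T a' b' r = true := by
  have h1 := S_sub a b a' ha b' hb
  unfold S at h
  unfold T
  rw [← h1, Nat.testBit_and] at h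
  simp only [Bool.and_eq_true] at h
  exact h.2

theorem T_good : ∀ a b r : Fin 14, T a b r = true →
    r ≠ a ∧ r ≠ b ∧ ∃ r' ∈ nb r, S a b r' = true := by decide

theorem S_ne : ∀ a b r : Fin 14, S a b r = true → r ≠ a ∧ r ≠ b := by decide

section Evade

variable {k : ℕ} (σ : List (Fin 14) → Fin k → Fin 14) (i₀ i₁ : Fin k)

/-- the requirement on the next robber position after the history `h` -/
def Cond : List (Fin 14) → Fin 14 → Prop
  | [], r' => S (σ [] i₀) (σ [] i₁) r' = true
  | x :: h, r' => r' ∈ nb x ∧ S (σ (x :: h) i₀) (σ (x :: h) i₁) r' = true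

open Classical in
/-- the next robber position -/
noncomputable def next (h : List (Fin 14)) : Fin 14 :=
  if hh : ∃ r', Cond σ i₀ i₁ h r' then hh.choose else 0

/-- the robber history -/
noncomputable def hist : ℕ → List (Fin 14)
  | 0 => []
  | n + 1 => next σ i₀ i₁ (hist n) :: hist n

/-- the robber run -/
noncomputable def run (n : ℕ) : Fin 14 := next σ i₀ i₁ (hist σ i₀ i₁ n)

theorem past_run (n : ℕ) : past (run σ i₀ i₁) n = hist σ i₀ i₁ n := by
  induction n with
  | zero => rfl
  | succ n ih => simp only [past, hist, ih, run]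

theorem next_spec {h : List (Fin 14)} (hh : ∃ r', Cond σ i₀ i₁ h r') :
    Cond σ i₀ i₁ h (next σ i₀ i₁ h) := by
  unfold next
  rw [dif_pos hh]
  exact hh.choose_spec

variable {σ} (hσ : LegalStrategy true G14 σ)

include hσ in
theorem step_mem (h : List (Fin 14)) (r : Fin 14) (i : Fin k) : σ (r :: h) i ∈ nb (σ h i) := by
  rcases hσ h r i with h1 | h1
  · exact h1
  · exact absurd h1.1 (by decide)

include hσ in
theorem cond_run (n : ℕ) : Cond σ i₀ i₁ (hist σ i₀ i₁ n) (run σ i₀ i₁ n) := by
  induction n with
  | zero => exact next_spec σ i₀ i₁ (S_start _ _)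
  | succ n ih =>
    have hS : S (σ (hist σ i₀ i₁ n) i₀) (σ (hist σ i₀ i₁ n) i₁) (run σ i₀ i₁ n) = true := by
      revert ih
      cases hist σ i₀ i₁ n with
      | nil => exact fun h => h
      | cons x h => exact fun h => h.2
    have hT := S_T (step_mem hσ (hist σ i₀ i₁ n) (run σ i₀ i₁ n) i₀)
      (step_mem hσ (hist σ i₀ i₁ n) (run σ i₀ i₁ n) i₁) hS
    obtain ⟨-, -, r', hr', hs'⟩ := T_good _ _ _ hT
    exact next_spec σ i₀ i₁ ⟨r', hr', hs'⟩

include hσ in
theorem safe_run (n : ℕ) :
    S (σ (hist σ i₀ i₁ n) i₀) (σ (hist σ i₀ i₁ n) i₁) (run σ i₀ i₁ n) = true := by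
  have ih := cond_run i₀ i₁ hσ n
  revert ih
  cases hist σ i₀ i₁ n with
  | nil => exact fun h => h
  | cons x h => exact fun h => h.2

include hσ in
theorem adj_run (n : ℕ) : G14.Adj (run σ i₀ i₁ n) (run σ i₀ i₁ (n + 1)) := by
  have ih := cond_run i₀ i₁ hσ (n + 1)
  exact ih.1

end Evade

theorem not_copsWin {k : ℕ} (hk : k ≤ 2) : ¬ CopsWin true G14 k := by
  rintro ⟨σ, hσ, hwin⟩
  rcases Nat.eq_zero_or_pos k with h0 | hpos
  · subst h0
    have hrun : RobberRun true G14 (fun n => if n % 2 = 0 then (0 : Fin 14) else 6) := by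
      intro n
      left
      rcases Nat.mod_two_eq_zero_or_one n with h | h
      · have h2 : (n + 1) % 2 = 1 := by omega
        simp only [h, h2]
        decide
      · have h2 : (n + 1) % 2 = 0 := by omega
        simp only [h, h2]
        decide
    obtain ⟨n, i, -⟩ := hwin _ hrun
    exact i.elim0
  · let i₀ : Fin k := ⟨0, hpos⟩
    let i₁ : Fin k := ⟨k - 1, by omega⟩
    have hi : ∀ i : Fin k, i = i₀ ∨ i = i₁ := by
      intro i
      have := i.2
      rcases Nat.eq_zero_or_pos i.1 with h | h
      · left; exact Fin.ext h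
      · right; apply Fin.ext; show i.1 = k - 1; omega
    obtain ⟨n, i, h⟩ := hwin (run σ i₀ i₁) (fun n => Or.inl (adj_run i₀ i₁ hσ n))
    rw [past_run, past_run] at h
    have hS := safe_run i₀ i₁ hσ n
    have hne := S_ne _ _ _ hS
    have hT := S_T (step_mem hσ (hist σ i₀ i₁ n) (run σ i₀ i₁ n) i₀)
      (step_mem hσ (hist σ i₀ i₁ n) (run σ i₀ i₁ n) i₁) hS
    obtain ⟨h1, h2, -⟩ := T_good _ _ _ hT
    rcases hi i with rfl | rfl
    · rcases h with h | h
      · exact hne.1 h.symm
      · exact h1 h.symm
    · rcases h with h | h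
      · exact hne.2 h.symm
      · exact h2 h.symm

/-- Fourteen cops occupy all vertices at the start. -/
theorem copsWin_all : CopsWin true G14 14 := by
  have hnb : ∀ v : Fin 14, ∃ w, G14.Adj v w := by decide
  choose f hf using hnb
  refine ⟨fun h i => f^[h.length] i, ?_, ?_⟩
  · intro h r i
    left
    simp only [List.length_cons, Function.iterate_succ', Function.comp]
    exact hf _
  · intro r _
    exact ⟨0, r 0, Or.inl rfl⟩

theorem three_le : 3 ≤ copNumber true G14 := by
  refine le_csInf ⟨14, copsWin_all⟩ ?_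
  intro k hk
  by_contra hcon
  exact not_copsWin (by omega) hk

/-! ### Two passive cops win -/

/-- the cops' answer to the robber position `r` -/
def answer (c : Fin 2 → Fin 14) (r : Fin 14) : Fin 2 → Fin 14 :=
  if r ∈ nb (c 0) then ![r, c 1]
  else if r ∈ nb (c 1) then ![c 0, r]
  else if r = 4 ∧ c 1 = 12 then ![c 0, 2]
  else if r = 13 ∧ c 0 = 3 then ![2, c 1]
  else c

/-- the strategy of two passive cops -/
def strat : List (Fin 14) → Fin 2 → Fin 14
  | [] => ![3, 12]
  | r :: h => answer (strat h) r

theorem answer_legal (c : Fin 2 → Fin 14) (r : Fin 14) (i : Fin 2) :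
    Step false G14 (c i) (answer c r i) := by
  unfold answer
  split_ifs with h1 h2 h3 h4
  · fin_cases i
    · exact Or.inl h1
    · exact Or.inr ⟨rfl, rfl⟩
  · fin_cases i
    · exact Or.inr ⟨rfl, rfl⟩
    · exact Or.inl h2
  · fin_cases i
    · exact Or.inr ⟨rfl, rfl⟩
    · left
      show G14.Adj (c 1) 2
      rw [h3.2]
      decide
  · fin_cases i
    · left
      show G14.Adj (c 0) 2
      rw [h4.2]
      decide
    · exact Or.inr ⟨rfl, rfl⟩
  · exact Or.inr ⟨rfl, rfl⟩

theorem strat_wins : ∀ r₀ : Fin 14,
    (∃ i, strat [] i = r₀) ∨ (∃ i, strat [r₀] i = r₀) ∨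
      ∀ r₁ : Fin 14, (r₁ ∈ nb r₀ ∨ r₁ = r₀) → (∃ i, strat [r₁, r₀] i = r₁) := by decide

theorem copsWin_two : CopsWin false G14 2 := by
  refine ⟨strat, fun h r i => answer_legal _ _ _, ?_⟩
  intro r hr
  rcases strat_wins (r 0) with ⟨i, hi⟩ | ⟨i, hi⟩ | h
  · exact ⟨0, i, Or.inl hi⟩
  · exact ⟨0, i, Or.inr hi⟩
  · obtain ⟨i, hi⟩ := h (r 1) (by
      rcases hr 0 with h1 | h1
      · exact Or.inl h1
      · exact Or.inr h1.2)
    exact ⟨1, i, Or.inr hi⟩

theorem le_two : copNumber false G14 ≤ 2 := Nat.sInf_le copsWin_two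

/-! ### Connected and not bipartite -/

theorem connected : G14.Connected := by
  have h : ∀ v : Fin 14, G14.Reachable 12 v := by
    have h0 : G14.Reachable 12 12 := SimpleGraph.Reachable.refl _
    have e : ∀ {a b : Fin 14}, G14.Reachable 12 a → b ∈ nb a → G14.Reachable 12 b :=
      fun h hab => h.trans (SimpleGraph.Adj.reachable hab)
    have r0 := e h0 (b := 0) (by decide)
    have r1 := e h0 (b := 1) (by decide)
    have r2 := e h0 (b := 2) (by decide)
    have r5 := e h0 (b := 5) (by decide)
    have r10 := e h0 (b := 10) (by decide)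
    have r11 := e h0 (b := 11) (by decide)
    have r6 := e r0 (b := 6) (by decide)
    have r7 := e r0 (b := 7) (by decide)
    have r8 := e r1 (b := 8) (by decide)
    have r9 := e r1 (b := 9) (by decide)
    have r13 := e r0 (b := 13) (by decide)
    have r3 := e r2 (b := 3) (by decide)
    have r4 := e r2 (b := 4) (by decide)
    intro v
    fin_cases v <;> assumption
  exact (SimpleGraph.connected_iff_exists_forall_reachable _).2 ⟨12, h⟩

/-- The vertices 2, 3, 5 form a triangle. -/
theorem not_colorable : ¬ G14.Colorable 2 := by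
  rintro ⟨C⟩
  have h23 : C 2 ≠ C 3 := C.valid (by decide)
  have h25 : C 2 ≠ C 5 := C.valid (by decide)
  have h35 : C 3 ≠ C 5 := C.valid (by decide)
  generalize C 2 = a at *
  generalize C 3 = b at *
  generalize C 5 = c at *
  revert a b c
  decide

/-- There is a finite connected non-bipartite graph whose fully active cop number is larger than
its (passive) cop number. -/
theorem result : ∃ G : SimpleGraph (Fin 14), G.Connected ∧ ¬ G.Colorable 2 ∧
    CopsWin false G 2 ∧ (∀ k ≤ 2, ¬ CopsWin true G k) ∧ copNumber false G < copNumber true G :=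
  ⟨G14, connected, not_colorable, copsWin_two, fun _ hk => not_copsWin hk,
    lt_of_le_of_lt le_two three_le⟩

end Pool.Agent.Results.MP_bb83f1_co.ActiveExceedsPassive
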